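import Pool.Agent.Helper9.CC.Stm
import Pool.Agent.Helper9.FJ.Basic
import Pool.Agent.Helper90.FJ.Gen

/-! Project CC (helper9), package RRB: Riemann-Roch for vector bundles. -/

set_option autoImplicit false

namespace Pool.Agent.Helper41.CC2

open FF Module Pool.Agent.Helper9.FJ

variable {K : Type} [Field K] [Algebra ℂ K] [IsFF ℂ K]

/-- an element of the valuation ring -/
def mo (P : Place ℂ K) (x : K) (h : Ge P 0 x) : P.O := ⟨x, h⟩

omit [IsFF ℂ K] in
/-- hyperplane -/
theorem hyp_sum {P : Place ℂ K} {n : ℕ} {w : Fin n → K} (h : ∀ i, Ge P 0 (w i)) (lam : Fin n → ℂ) :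
    Ge P 0 (∑ j, w j * algebraMap ℂ K (lam j)) :=
  Ge.sum _ fun j _ => by
    have := (h j).mul (ge_const (P := P) (lam j))
    rwa [add_zero] at this

theorem codim (P : Place ℂ K) {n : ℕ} (V : Submodule ℂ (Fin n → K)) [FiniteDimensional ℂ V]
    (hV : ∀ w ∈ V, ∀ i, Ge P 0 (w i)) (lam : Fin n → ℂ) :
    ∃ V' ≤ V, (∀ w ∈ V', Ge P 1 (∑ j, w j * algebraMap ℂ K (lam j))) ∧
      finrank ℂ V ≤ finrank ℂ V' + 1 := by
  let f : V →ₗ[ℂ] ℂ :=
    { toFun := fun w => Pool.Agent.Helper90.FJ.theta P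
        (mo P (∑ j, w.1 j * algebraMap ℂ K (lam j)) (hyp_sum (hV w.1 w.2) lam))
      map_add' := fun a b => by
        rw [← map_add]
        congr 1
        refine Subtype.ext ?_
        show ∑ j, (a.1 j + b.1 j) * algebraMap ℂ K (lam j) =
          ∑ j, a.1 j * algebraMap ℂ K (lam j) + ∑ j, b.1 j * algebraMap ℂ K (lam j)
        rw [← Finset.sum_add_distrib]
        exact Finset.sum_congr rfl fun j _ => add_mul _ _ _
      map_smul' := fun c a => by
        rw [RingHom.id_apply, smul_eq_mul]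
        have h1 : c = Pool.Agent.Helper90.FJ.theta P (Pool.Agent.Helper90.FJ.cst P c) :=
          (Pool.Agent.Helper90.FJ.theta_cst P c).symm
        conv_rhs => rw [h1]
        rw [← map_mul]
        congr 1
        refine Subtype.ext ?_
        show ∑ j, (c • a.1 j) * algebraMap ℂ K (lam j) =
          algebraMap ℂ K c * ∑ j, a.1 j * algebraMap ℂ K (lam j)
        rw [Finset.mul_sum]
        refine Finset.sum_congr rfl fun j _ => ?_
        rw [Algebra.smul_def, mul_assoc] }
  refine ⟨(LinearMap.ker f).map V.subtype, ?_, ?_, ?_⟩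
  · rintro _ ⟨w, -, rfl⟩
    exact w.2
  · rintro _ ⟨w, hw, rfl⟩
    have h1 : f w = 0 := hw
    exact (Pool.Agent.Helper90.FJ.theta_eq_zero P _).1 h1
  · have h1 := LinearMap.finrank_range_add_finrank_ker f
    have h2 : finrank ℂ (LinearMap.range f) ≤ 1 := by
      refine (Submodule.finrank_le _).trans ?_
      rw [finrank_self]
    have h4 : finrank ℂ ((LinearMap.ker f).map V.subtype) = finrank ℂ (LinearMap.ker f) :=
      Submodule.finrank_map_subtype_eq V (LinearMap.ker f)
    omega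

/-- the modification of the coordinates -/
noncomputable def U {n : ℕ} (j0 : Fin n) (b : Fin n → K) : Matrix (Fin n) (Fin n) K :=
  (1 : Matrix (Fin n) (Fin n) K).updateCol j0 b

omit [IsFF ℂ K] [Algebra ℂ K] in
theorem det_U {n : ℕ} (j0 : Fin n) (b : Fin n → K) : (U j0 b).det = b j0 := by
  unfold U
  rw [← Matrix.cramer_apply, Matrix.cramer_one]
  rfl

omit [IsFF ℂ K] [Algebra ℂ K] in
theorem vecU {n : ℕ} (j0 : Fin n) (b : Fin n → K) (w : Fin n → K) (j : Fin n) :
    Matrix.vecMul w (U j0 b) j = if j = j0 then ∑ k, w k * b k else w j := by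
  have e : Matrix.vecMul w (U j0 b) j =
      ∑ k, w k * (1 : Matrix (Fin n) (Fin n) K).updateCol j0 b k j := rfl
  rw [e]
  split_ifs with h
  · subst h
    refine Finset.sum_congr rfl fun k _ => ?_
    rw [Matrix.updateCol_self]
  · rw [Finset.sum_eq_single j]
    · rw [Matrix.updateCol_ne h, Matrix.one_apply_eq, mul_one]
    · intro k _ hk
      rw [Matrix.updateCol_ne h, Matrix.one_apply_ne hk, mul_zero]
    · intro h'
      exact absurd (Finset.mem_univ j) h'

/-- right multiplication, as a linear map over the complex numbers -/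
noncomputable def rm {n : ℕ} (M : Matrix (Fin n) (Fin n) K) : (Fin n → K) →ₗ[ℂ] (Fin n → K) where
  toFun w := Matrix.vecMul w M
  map_add' a b := Matrix.add_vecMul M a b
  map_smul' c a := Matrix.smul_vecMul c a M

omit [IsFF ℂ K] in
theorem rm_inj {n : ℕ} {M : Matrix (Fin n) (Fin n) K} (h : M.det ≠ 0) :
    Function.Injective (rm M) := by
  intro a b hab
  have h1 : Matrix.vecMul a M = Matrix.vecMul b M := hab
  have h2 := congrArg (fun v => Matrix.vecMul v M⁻¹) h1
  simp only [Matrix.vecMul_vecMul, Matrix.mul_nonsing_inv M h.isUnit, Matrix.vecMul_one] at h2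
  exact h2

omit [IsFF ℂ K] in
/-- pull back along an injection -/
theorem pull {n : ℕ} {T : (Fin n → K) →ₗ[ℂ] (Fin n → K)} (hT : Function.Injective T)
    (V : Submodule ℂ (Fin n → K)) [FiniteDimensional ℂ V] (W : Submodule ℂ (Fin n → K))
    (hW : W ≤ V.map T) : ∃ V' ≤ V, (∀ w ∈ V', T w ∈ W) ∧ finrank ℂ V' = finrank ℂ W := by
  refine ⟨W.comap T, ?_, fun w hw => hw, ?_⟩
  · intro w hw
    obtain ⟨v, hv, h⟩ := hW hw
    rw [← hT h]
    exact hv
  · have h1 : (W.comap T).map T = W := by
      rw [Submodule.map_comap_eq, inf_eq_right]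
      exact hW.trans (by rintro _ ⟨v, -, rfl⟩; exact ⟨v, rfl⟩)
    rw [(Submodule.equivMapOfInjective T hT (W.comap T)).finrank_eq, h1]

omit [IsFF ℂ K] in
theorem ge_inv {P : Place ℂ K} {n : ℕ} {M : Matrix (Fin n) (Fin n) K}
    (hM : ∀ i j, Ge P 0 (M i j)) (hd : M.det ≠ 0) (h0 : P.ord M.det = 0) (i j : Fin n) :
    Ge P 0 (M⁻¹ i j) := by
  rw [Matrix.inv_def, Matrix.smul_apply, smul_eq_mul, Ring.inverse_eq_inv', Matrix.adjugate_apply]
  have h1 : Ge P 0 (M.det⁻¹) := Or.inr (by rw [P.ord_inv, h0, neg_zero])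
  have h2 : Ge P 0 ((M.updateRow j (Pi.single i 1)).det) := by
    refine ge_det fun a b => ?_
    rw [Matrix.updateRow_apply]
    split_ifs
    · by_cases hb : b = i
      · subst hb
        rw [Pi.single_eq_same]
        exact ge_one
      · rw [Pi.single_eq_of_ne hb]
        exact ge_zero
    · exact hM a b
  have := h1.mul h2
  rwa [add_zero] at this

/-- the reduction of a matrix -/
noncomputable def bar (P : Place ℂ K) {n : ℕ} (M : Matrix (Fin n) (Fin n) K)
    (hM : ∀ i j, Ge P 0 (M i j)) : Matrix (Fin n) (Fin n) ℂ :=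
  (Matrix.of fun i j => mo P (M i j) (hM i j)).map (Pool.Agent.Helper90.FJ.theta P)

theorem det_bar (P : Place ℂ K) {n : ℕ} (M : Matrix (Fin n) (Fin n) K)
    (hM : ∀ i j, Ge P 0 (M i j)) (h1 : Ge P 1 M.det) : (bar P M hM).det = 0 := by
  unfold bar
  rw [← RingHom.mapMatrix_apply, ← RingHom.map_det, Pool.Agent.Helper90.FJ.theta_eq_zero]
  have h2 : Pool.Agent.Helper90.FJ.io P (Matrix.of fun i j => mo P (M i j) (hM i j)).det =
      M.det := by
    rw [RingHom.map_det]
    rfl
  rw [h2]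
  exact h1

theorem loc_cond (P : Place ℂ K) {t : K} (ht : P.ord t = 1) {n : ℕ} (c : ℕ) :
    ∀ (M : Matrix (Fin n) (Fin n) K), (∀ i j, Ge P 0 (M i j)) → M.det ≠ 0 → P.ord M.det = c →
    ∀ (V : Submodule ℂ (Fin n → K)) [FiniteDimensional ℂ V], (∀ w ∈ V, ∀ i, Ge P 0 (w i)) →
      ∃ V' ≤ V, (∀ w ∈ V', ∀ i, Ge P 0 (Matrix.vecMul w M⁻¹ i)) ∧
        finrank ℂ V ≤ finrank ℂ V' + c := by
  have ht0 : t ≠ 0 := by rintro rfl; rw [P.ord_zero] at ht; omega
  induction c with
  | zero =>
    intro M hM hd h0 V _ hV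
    refine ⟨V, le_rfl, fun w hw i => ?_, by omega⟩
    have e : Matrix.vecMul w M⁻¹ i = ∑ j, w j * M⁻¹ j i := rfl
    rw [e]
    refine Ge.sum _ fun j _ => ?_
    have h1 : Ge P 0 (M⁻¹ j i) := ge_inv hM hd (by simpa using h0) j i
    have := (hV w hw j).mul h1
    rwa [add_zero] at this
  | succ c ih =>
    intro M hM hd hc V _ hV
    have hdet : Ge P 1 M.det := Or.inr (by rw [hc]; push_cast; omega)
    obtain ⟨lam, hlam, h0⟩ := Matrix.exists_mulVec_eq_zero_iff.2 (det_bar P M hM hdet)
    obtain ⟨j0, hj0⟩ := Function.ne_iff.1 hlam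
    have hj0' : algebraMap ℂ K (lam j0) ≠ 0 := by
      rw [Ne, map_eq_zero]
      exact hj0
    set b : Fin n → K := fun j => algebraMap ℂ K (lam j) * t⁻¹ with hb
    have hdiv : ∀ w : Fin n → K, Ge P 1 (∑ j, w j * algebraMap ℂ K (lam j)) →
        Ge P 0 (∑ k, w k * b k) := by
      intro w hw
      have e : ∑ k, w k * b k = (∑ j, w j * algebraMap ℂ K (lam j)) * t⁻¹ := by
        rw [Finset.sum_mul]
        exact Finset.sum_congr rfl fun k _ => by rw [hb, mul_assoc]
      rw [e]
      have := hw.mul (Or.inr (by rw [P.ord_inv, ht]) : Ge P (-1) t⁻¹)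
      rwa [show (1 : ℤ) + -1 = 0 by norm_num] at this
    have hrow : ∀ i, Ge P 1 (∑ j, M i j * algebraMap ℂ K (lam j)) := by
      intro i
      have h1 := congrFun h0 i
      have h2 : Pool.Agent.Helper90.FJ.theta P
          (mo P (∑ j, M i j * algebraMap ℂ K (lam j)) (hyp_sum (hM i) lam)) = 0 := by
        have e : mo P (∑ j, M i j * algebraMap ℂ K (lam j)) (hyp_sum (hM i) lam) =
            ∑ j, mo P (M i j) (hM i j) * Pool.Agent.Helper90.FJ.cst P (lam j) := by
          apply Pool.Agent.Helper90.FJ.io_injective P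
          rw [map_sum]
          refine (Finset.sum_congr rfl fun j _ => ?_ :
            (∑ j, M i j * algebraMap ℂ K (lam j)) = _)
          rw [map_mul]
          rfl
        rw [e, map_sum]
        refine Eq.trans ?_ h1
        refine Finset.sum_congr rfl fun j _ => ?_
        rw [map_mul, Pool.Agent.Helper90.FJ.theta_cst]
        rfl
      exact (Pool.Agent.Helper90.FJ.theta_eq_zero P _).1 h2
    obtain ⟨V1, hV1, hV1g, hV1d⟩ := codim P V hV lam
    have hV1f : FiniteDimensional ℂ V1 := Submodule.finiteDimensional_of_le hV1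
    have hUd : (U j0 b).det ≠ 0 := by
      rw [det_U]
      exact mul_ne_zero hj0' (inv_ne_zero ht0)
    have hTi : Function.Injective (rm (U j0 b)) := rm_inj hUd
    have hM' : ∀ i j, Ge P 0 ((M * U j0 b) i j) := by
      intro i j
      have e : (M * U j0 b) i j = Matrix.vecMul (M i) (U j0 b) j := rfl
      rw [e, vecU]
      split_ifs
      · exact hdiv (M i) (hrow i)
      · exact hM i j
    have hd' : (M * U j0 b).det ≠ 0 := by
      rw [Matrix.det_mul]
      exact mul_ne_zero hd hUd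
    have ho' : P.ord (M * U j0 b).det = c := by
      rw [Matrix.det_mul, P.ord_mul hd hUd, det_U, hb]
      show P.ord M.det + P.ord (algebraMap ℂ K (lam j0) * t⁻¹) = c
      rw [P.ord_mul hj0' (inv_ne_zero ht0), P.ord_const hj0, P.ord_inv, ht, hc]
      push_cast
      ring
    obtain ⟨W, hW, hWg, hWd⟩ := ih (M * U j0 b) hM' hd' ho' (V1.map (rm (U j0 b))) (by
      rintro _ ⟨w, hw, rfl⟩ i
      show Ge P 0 (Matrix.vecMul w (U j0 b) i)
      rw [vecU]
      split_ifs
      · exact hdiv w (hV1g w hw)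
      · exact hV w (hV1 hw) i)
    obtain ⟨V', hV', hV'g, hV'd⟩ := pull hTi V1 W hW
    refine ⟨V', hV'.trans hV1, fun w hw i => ?_, ?_⟩
    · have h1 := hWg _ (hV'g w hw) i
      have h2 : Matrix.vecMul (rm (U j0 b) w) (M * U j0 b)⁻¹ = Matrix.vecMul w M⁻¹ := by
        show Matrix.vecMul (Matrix.vecMul w (U j0 b)) (M * U j0 b)⁻¹ = _
        rw [Matrix.vecMul_vecMul, Matrix.mul_inv_rev, ← Matrix.mul_assoc,
          Matrix.mul_nonsing_inv _ hUd.isUnit, Matrix.one_mul]
      rwa [h2] at h1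
    · have h1 : finrank ℂ (V1.map (rm (U j0 b))) = finrank ℂ V1 :=
        (Submodule.equivMapOfInjective _ hTi V1).finrank_eq.symm
      omega

omit [IsFF ℂ K] in
theorem smul_inv' {n : ℕ} {a : K} (ha : a ≠ 0) {B : Matrix (Fin n) (Fin n) K} (hB : B.det ≠ 0) :
    (a • B)⁻¹ = a⁻¹ • B⁻¹ := by
  apply Matrix.inv_eq_right_inv
  rw [Matrix.smul_mul, Matrix.mul_smul, Matrix.mul_nonsing_inv _ hB.isUnit, smul_smul,
    mul_inv_cancel₀ ha, one_smul]

/-- scaling -/
noncomputable def sc {n : ℕ} (a : K) : (Fin n → K) →ₗ[ℂ] (Fin n → K) where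
  toFun w := a • w
  map_add' x y := smul_add a x y
  map_smul' c x := by
    rw [RingHom.id_apply]
    exact smul_comm a c x

theorem cond2 (P : Place ℂ K) {n : ℕ} (B : Matrix (Fin n) (Fin n) K) (hB : B.det ≠ 0) (d e : ℤ)
    (hBe : ∀ i j, Ge P (e - d) (B i j)) (V : Submodule ℂ (Fin n → K)) [FiniteDimensional ℂ V]
    (hV : ∀ w ∈ V, ∀ i, Ge P (-d) (w i)) :
    ∃ V' ≤ V, (∀ w ∈ V', ∀ i, Ge P (-e) (Matrix.vecMul w B⁻¹ i)) ∧
      (finrank ℂ V : ℤ) ≤ finrank ℂ V' + (n * (d - e) + P.ord B.det) := by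
  obtain ⟨t, ht0, ht⟩ := P.surj
  have hz : ∀ m : ℤ, t ^ m ≠ 0 := fun m => zpow_ne_zero m ht0
  have ho : ∀ m : ℤ, P.ord (t ^ m) = m := fun m => by rw [P.ord_zpow, ht, mul_one]
  set M : Matrix (Fin n) (Fin n) K := t ^ (d - e) • B with hMdef
  have hM : ∀ i j, Ge P 0 (M i j) := by
    intro i j
    have h1 : Ge P (d - e) (t ^ (d - e)) := Or.inr (ho (d - e)).ge
    have := h1.mul (hBe i j)
    rwa [show d - e + (e - d) = 0 by ring] at this
  have hdet : M.det = (t ^ (d - e)) ^ n * B.det := by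
    rw [hMdef, Matrix.det_smul, Fintype.card_fin]
  have hMd : M.det ≠ 0 := by
    rw [hdet]
    exact mul_ne_zero (pow_ne_zero _ (hz _)) hB
  have hMo : P.ord M.det = n * (d - e) + P.ord B.det := by
    rw [hdet, P.ord_mul (pow_ne_zero _ (hz _)) hB, P.ord_pow, ho]
  have hnn : 0 ≤ P.ord M.det := (ge_iff hMd).1 (ge_det hM)
  obtain ⟨c, hc⟩ := Int.eq_ofNat_of_zero_le hnn
  have hSi : Function.Injective (sc (n := n) (t ^ d)) := by
    intro x y hxy
    exact smul_right_injective _ (hz d) hxy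
  obtain ⟨W, hW, hWg, hWd⟩ := loc_cond P ht c M hM hMd hc (V.map (sc (t ^ d))) (by
    rintro _ ⟨w, hw, rfl⟩ i
    show Ge P 0 (t ^ d * w i)
    have h1 : Ge P d (t ^ d) := Or.inr (ho d).ge
    have := h1.mul (hV w hw i)
    rwa [add_neg_cancel] at this)
  obtain ⟨V', hV', hV'g, hV'd⟩ := pull hSi V W hW
  refine ⟨V', hV', fun w hw i => ?_, ?_⟩
  · have h1 := hWg _ (hV'g w hw) i
    have h2 : Matrix.vecMul (sc (t ^ d) w) M⁻¹ i = t ^ e * Matrix.vecMul w B⁻¹ i := by
      show Matrix.vecMul (t ^ d • w) M⁻¹ i = _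
      rw [hMdef, smul_inv' (hz _) hB, Matrix.smul_vecMul, Matrix.vecMul_smul, smul_smul,
        Pi.smul_apply, smul_eq_mul, ← zpow_neg, ← zpow_add₀ ht0]
      congr 2
      ring
    rw [h2] at h1
    refine Ge.of_mul (hz e) ?_
    rw [ho, add_neg_cancel]
    exact h1
  · have h1 : finrank ℂ (V.map (sc (t ^ d))) = finrank ℂ V :=
      (Submodule.equivMapOfInjective _ hSi V).finrank_eq.symm
    rw [← hMo, hc]
    rw [h1] at hWd
    rw [hV'd]
    exact_mod_cast hWd

theorem glob {n : ℕ} (F : Bundle K n) (N D : Place ℂ K →₀ ℤ)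
    (hD : ∀ P i j, Ge P (N P - D P) (F.B P i j)) (T : Finset (Place ℂ K)) :
    ∀ (V : Submodule ℂ (Fin n → K)) [FiniteDimensional ℂ V],
    (∀ w ∈ V, ∀ P i, Ge P (-D P) (w i)) →
    ∃ V' ≤ V, (∀ w ∈ V', ∀ P ∈ T, ∀ i, Ge P (-N P) (Matrix.vecMul w (F.B P)⁻¹ i)) ∧
      (finrank ℂ V : ℤ) ≤ finrank ℂ V' + ∑ P ∈ T, (n * (D P - N P) + P.ord (F.B P).det) := by
  classical
  induction T using Finset.induction_on with
  | empty =>
    intro V _ _
    exact ⟨V, le_rfl, fun w _ P hP => absurd hP (Finset.notMem_empty P), by simp⟩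
  | insert Q T hQ ih =>
    intro V _ hV
    obtain ⟨V1, hV1, hg1, hd1⟩ := ih V hV
    have : FiniteDimensional ℂ V1 := Submodule.finiteDimensional_of_le hV1
    obtain ⟨V2, hV2, hg2, hd2⟩ := cond2 Q (F.B Q) (F.det_ne Q) (D Q) (N Q) (hD Q) V1
      fun w hw i => hV w (hV1 hw) Q i
    refine ⟨V2, hV2.trans hV1, fun w hw P hP i => ?_, ?_⟩
    · rcases Finset.mem_insert.1 hP with h | h
      · subst h
        exact hg2 w hw i
      · exact hg1 w (hV2 hw) P h i
    · rw [Finset.sum_insert hQ]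
      omega

theorem ddeg_eq (D : Place ℂ K →₀ ℤ) (T : Finset (Place ℂ K)) (h : D.support ⊆ T) :
    ddeg D = ∑ P ∈ T, D P := by
  unfold ddeg
  rw [Finsupp.sum_of_support_subset D h _ (fun _ _ => by simp)]
  refine Finset.sum_congr rfl fun P _ => ?_
  rw [Pool.Agent.Helper90.FJ.deg_one]
  simp

theorem rr {n : ℕ} (F : Bundle K n) (N : Place ℂ K →₀ ℤ) {W : Place ℂ K →₀ ℤ} {γ : ℤ}
    (hγ : ∀ D : Place ℂ K →₀ ℤ, ell D - ell (W - D) = ddeg D - γ) :
    ∃ V : Submodule ℂ (Fin n → K), FiniteDimensional ℂ V ∧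
      (∀ v ∈ V, ∀ P i, Ge P (-N P) (Matrix.vecMul v (F.B P)⁻¹ i)) ∧
      ddeg F.detDiv + n * ddeg N - n * γ ≤ finrank ℂ V := by
  classical
  -- the divisor
  let g : Place ℂ K → ℤ := fun P => if F.B P = 1 ∧ N P = 0 then 0 else
    N P + ∑ i, ∑ j, |P.ord (F.B P i j)|
  have hfin : (Function.support g).Finite := by
    refine (F.fin.union N.finite_support).subset fun P hP => ?_
    by_contra hcon
    apply hP
    rw [Set.mem_union, not_or] at hcon
    have h1 : F.B P = 1 := by
      by_contra h; exact hcon.1 h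
    have h2 : N P = 0 := by
      by_contra h; exact hcon.2 h
    exact if_pos ⟨h1, h2⟩
  let D : Place ℂ K →₀ ℤ := Finsupp.ofSupportFinite g hfin
  have hDg : ∀ P, D P = g P := fun P => rfl
  have hD : ∀ P i j, Ge P (N P - D P) (F.B P i j) := by
    intro P i j
    rw [hDg]
    show Ge P (N P - (if F.B P = 1 ∧ N P = 0 then 0 else
      N P + ∑ i, ∑ j, |P.ord (F.B P i j)|)) (F.B P i j)
    split_ifs with h
    · rw [h.1, h.2, sub_zero, Matrix.one_apply]
      split_ifs
      · exact ge_one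
      · exact ge_zero
    · refine Or.inr ?_
      have h1 : |P.ord (F.B P i j)| ≤ ∑ i, ∑ j, |P.ord (F.B P i j)| :=
        (Finset.single_le_sum (f := fun j => |P.ord (F.B P i j)|) (fun _ _ => abs_nonneg _)
          (Finset.mem_univ j)).trans
          (Finset.single_le_sum (f := fun i => ∑ j, |P.ord (F.B P i j)|)
            (fun _ _ => Finset.sum_nonneg fun _ _ => abs_nonneg _) (Finset.mem_univ i))
      have h2 := neg_abs_le (P.ord (F.B P i j))
      omega
  -- the big space
  let f : (Fin n → LL D) →ₗ[ℂ] (Fin n → K) :=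
    LinearMap.pi fun i => (LL D).subtype ∘ₗ LinearMap.proj i
  have hf : Function.Injective f := by
    intro a b hab
    funext i
    exact Subtype.ext (congrFun hab i)
  let V0 : Submodule ℂ (Fin n → K) := LinearMap.range f
  have hV0 : (finrank ℂ V0 : ℤ) = n * ell D := by
    have h1 : finrank ℂ V0 = finrank ℂ (Fin n → LL D) := LinearMap.finrank_range_of_inj hf
    rw [h1, Module.finrank_pi_fintype, Finset.sum_const, Finset.card_univ, Fintype.card_fin,
      smul_eq_mul, Nat.cast_mul]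
    rfl
  have hV0D : ∀ w ∈ V0, ∀ P i, Ge P (-D P) (w i) := by
    rintro _ ⟨u, rfl⟩ P i
    rcases mem_LL.1 (u i).2 with h | h
    · exact Or.inl h
    · exact Or.inr (h P)
  let T : Finset (Place ℂ K) := F.fin.toFinset ∪ N.support ∪ D.support
  obtain ⟨V, hVV, hg, hd⟩ := glob F N D hD T V0 hV0D
  refine ⟨V, Submodule.finiteDimensional_of_le hVV, fun v hv P i => ?_, ?_⟩
  · by_cases hP : P ∈ T
    · exact hg v hv P hP i
    · have h1 : P ∉ F.fin.toFinset := fun h => hP (Finset.mem_union_left _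
        (Finset.mem_union_left _ h))
      have h2 : P ∉ N.support := fun h => hP (Finset.mem_union_left _
        (Finset.mem_union_right _ h))
      have h3 : P ∉ D.support := fun h => hP (Finset.mem_union_right _ h)
      rw [Set.Finite.mem_toFinset, Set.mem_setOf_eq, not_not] at h1
      have h4 := hV0D v (hVV hv) P i
      rw [Finsupp.notMem_support_iff.1 h3] at h4
      rw [Finsupp.notMem_support_iff.1 h2, h1, inv_one, Matrix.vecMul_one]
      exact h4
  · have e1 : ddeg D = ∑ P ∈ T, D P := ddeg_eq D T Finset.subset_union_right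
    have e2 : ddeg N = ∑ P ∈ T, N P := ddeg_eq N T
      (Finset.subset_union_right.trans Finset.subset_union_left)
    have e3 : ddeg F.detDiv = ∑ P ∈ T, F.detDiv P := by
      refine ddeg_eq _ T fun P hP => ?_
      refine Finset.mem_union_left _ (Finset.mem_union_left _ ?_)
      rw [Set.Finite.mem_toFinset, Set.mem_setOf_eq]
      intro h
      apply Finsupp.mem_support_iff.1 hP
      show -P.ord (F.B P).det = 0
      rw [h, Matrix.det_one, P.ord_one, neg_zero]
    have e4 : ∑ P ∈ T, (n * (D P - N P) + P.ord (F.B P).det) =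
        n * (ddeg D - ddeg N) - ddeg F.detDiv := by
      have e5 : ∑ P ∈ T, P.ord (F.B P).det = -∑ P ∈ T, F.detDiv P := by
        rw [← Finset.sum_neg_distrib]
        refine Finset.sum_congr rfl fun P _ => ?_
        show P.ord (F.B P).det = -(-P.ord (F.B P).det)
        rw [neg_neg]
      rw [e1, e2, e3, Finset.sum_add_distrib, ← Finset.mul_sum, Finset.sum_sub_distrib, e5]
      ring
    rw [e4, hV0] at hd
    have h1 := hγ D
    have h2 := ell_nonneg (W - D)
    have h3 : ddeg D - γ ≤ ell D := by omega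
    have h4 : (n : ℤ) * (ddeg D - γ) ≤ n * ell D := mul_le_mul_of_nonneg_left h3 (by positivity)
    nlinarith

theorem rrb : Pool.Agent.Helper9.CC.S_RRB := by
  intro K _ _ _ n F W hW hdW hn hF
  obtain ⟨γ, hγ⟩ := hW
  have hγ0 : γ ≤ 0 := by
    have h1 := hγ 0
    have h2 := hγ (W - 0)
    rw [sub_sub_cancel] at h2
    rw [sub_zero] at h1 h2
    rw [ddeg_zero] at h1
    omega
  have hn' : (1 : ℤ) ≤ n := by exact_mod_cast hn
  rcases lt_or_eq_of_le hγ0 with hγ1 | hγ1
  · obtain ⟨V, hVf, hV, hd⟩ := rr F 0 hγ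
    refine ⟨0, ddeg_zero, ?_⟩
    have h1 : (0 : ℤ) < finrank ℂ V := by
      rw [ddeg_zero] at hd
      nlinarith
    have h2 : 0 < finrank ℂ V := by exact_mod_cast h1
    have h3 : V ≠ ⊥ := by
      rintro rfl
      rw [finrank_bot] at h2
      exact lt_irrefl _ h2
    obtain ⟨v, hv, hv0⟩ := Submodule.exists_mem_ne_zero_of_ne_bot h3
    exact ⟨v, hv0, hV v hv⟩
  · obtain ⟨Q, -⟩ := exists_place (k := ℂ) (K := K)
    classical
    set N : Place ℂ K →₀ ℤ := Finsupp.single Q 1 with hN
    have hNd : ddeg N = 1 := Pool.Agent.Helper90.FJ.ddeg_single_one Q 1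
    obtain ⟨V, hVf, hV, hd⟩ := rr F N hγ
    have h1 : (n : ℤ) ≤ finrank ℂ V := by
      rw [hNd, hγ1] at hd
      linarith
    have h2 : n ≤ finrank ℂ V := by exact_mod_cast h1
    obtain ⟨v, hv⟩ := exists_linearIndependent_of_le_finrank h2
    set Vm : Matrix (Fin n) (Fin n) K := Matrix.of fun i j => (v i).1 j with hVm
    -- the local matrices
    have hloc : ∀ (P : Place ℂ K) (t : K), P.ord t = 1 → t ≠ 0 → ∀ i j,
        Ge P 0 ((t ^ (N P) • (Vm * (F.B P)⁻¹)) i j) := by
      intro P t ht ht0 i j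
      have h3 := hV (v i).1 (v i).2 P j
      have h4 : Ge P (N P) (t ^ (N P)) := Or.inr (by rw [P.ord_zpow, ht, mul_one])
      have h5 := h4.mul h3
      rw [add_neg_cancel] at h5
      exact h5
    by_cases hcase : ∃ (P : Place ℂ K) (t : K), P.ord t = 1 ∧ t ≠ 0 ∧
        Ge P 1 (t ^ (N P) • (Vm * (F.B P)⁻¹)).det
    · obtain ⟨P, t, ht, ht0, hPd⟩ := hcase
      obtain ⟨lam, hlam, h0⟩ := Matrix.exists_vecMul_eq_zero_iff.2
        (det_bar P _ (hloc P t ht ht0) hPd)
      refine ⟨N - Finsupp.single P 1, ?_, (∑ i, lam i • v i : V).1, ?_, ?_⟩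
      · rw [ddeg_sub, hNd, Pool.Agent.Helper90.FJ.ddeg_single_one, sub_self]
      · intro h
        apply hlam
        have h3 : ∑ i, lam i • v i = 0 := Subtype.ext h
        funext i
        exact Fintype.linearIndependent_iff.1 hv lam h3 i
      · intro P' i
        have h3 := hV _ (∑ i, lam i • v i : V).2 P' i
        by_cases hP' : P' = P
        · subst hP'
          have hb : Ge P' 1 (∑ k, (t ^ (N P') • (Vm * (F.B P')⁻¹)) k i *
              algebraMap ℂ K (lam k)) := by
            have h4 := congrFun h0 i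
            have hc : ∀ k, Ge P' 0 ((t ^ (N P') • (Vm * (F.B P')⁻¹)) k i) :=
              fun k => hloc P' t ht ht0 k i
            have h5 : Pool.Agent.Helper90.FJ.theta P'
                (mo P' (∑ k, (t ^ (N P') • (Vm * (F.B P')⁻¹)) k i * algebraMap ℂ K (lam k))
                  (hyp_sum hc lam)) = 0 := by
              have e : mo P' (∑ k, (t ^ (N P') • (Vm * (F.B P')⁻¹)) k i *
                  algebraMap ℂ K (lam k)) (hyp_sum hc lam) =
                  ∑ k, mo P' ((t ^ (N P') • (Vm * (F.B P')⁻¹)) k i) (hc k) *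
                    Pool.Agent.Helper90.FJ.cst P' (lam k) := by
                apply Pool.Agent.Helper90.FJ.io_injective P'
                rw [map_sum]
                refine (Finset.sum_congr rfl fun k _ => ?_ :
                  (∑ k, (t ^ (N P') • (Vm * (F.B P')⁻¹)) k i * algebraMap ℂ K (lam k)) = _)
                rw [map_mul]
                rfl
              rw [e, map_sum]
              refine Eq.trans ?_ h4
              refine Finset.sum_congr rfl fun k _ => ?_
              rw [map_mul, Pool.Agent.Helper90.FJ.theta_cst, mul_comm]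
              rfl
            exact (Pool.Agent.Helper90.FJ.theta_eq_zero P' _).1 h5
          have e : ∑ k, (t ^ (N P') • (Vm * (F.B P')⁻¹)) k i * algebraMap ℂ K (lam k) =
              t ^ (N P') * Matrix.vecMul (∑ i, lam i • v i : V).1 (F.B P')⁻¹ i := by
            have e1 : (∑ i, lam i • v i : V).1 = ∑ k, lam k • (v k).1 := by
              rw [AddSubmonoidClass.coe_finset_sum]
              rfl
            have e2 : Matrix.vecMul (∑ i, lam i • v i : V).1 (F.B P')⁻¹ =
                ∑ k, lam k • Matrix.vecMul (v k).1 (F.B P')⁻¹ := by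
              rw [e1]
              have := map_sum (rm (F.B P')⁻¹) (fun k => lam k • (v k).1) Finset.univ
              refine this.trans (Finset.sum_congr rfl fun k _ => ?_)
              rw [map_smul]
              rfl
            rw [e2, Finset.sum_apply, Finset.mul_sum]
            refine Finset.sum_congr rfl fun k _ => ?_
            have e3 : (Vm * (F.B P')⁻¹) k i = Matrix.vecMul (v k).1 (F.B P')⁻¹ i := rfl
            have e4 : lam k • Matrix.vecMul (v k).1 (F.B P')⁻¹ i =
                algebraMap ℂ K (lam k) * Matrix.vecMul (v k).1 (F.B P')⁻¹ i :=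
              Algebra.smul_def _ _
            rw [Pi.smul_apply, e4, Matrix.smul_apply, smul_eq_mul, e3]
            ring
          rw [e] at hb
          refine Ge.of_mul (zpow_ne_zero (N P') ht0) ?_
          rw [P'.ord_zpow, ht, mul_one, Finsupp.sub_apply, Finsupp.single_eq_same]
          rw [show N P' + -(N P' - 1) = 1 by ring]
          exact hb
        · rw [Finsupp.sub_apply, Finsupp.single_eq_of_ne hP', sub_zero]
          exact h3
    · exfalso
      push Not at hcase
      have hne : ∀ P : Place ℂ K, ∃ t : K, P.ord t = 1 ∧ t ≠ 0 := fun P => by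
        obtain ⟨t, h0, h1⟩ := P.surj
        exact ⟨t, h1, h0⟩
      have hVd : Vm.det ≠ 0 := by
        intro h0
        obtain ⟨t, ht, ht0⟩ := hne Q
        apply hcase Q t ht ht0
        rw [Matrix.det_smul, Matrix.det_mul, h0, zero_mul, mul_zero]
        exact ge_zero
      have hord : ∀ P : Place ℂ K, P.ord Vm.det = -(n * N P) - F.detDiv P := by
        intro P
        obtain ⟨t, ht, ht0⟩ := hne P
        have h3 := hcase P t ht ht0
        have h4 := ge_det (hloc P t ht ht0)
        have hdi : ((F.B P)⁻¹).det = (F.B P).det⁻¹ := by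
          rw [Matrix.det_nonsing_inv, Ring.inverse_eq_inv']
        have h5 : (t ^ (N P) • (Vm * (F.B P)⁻¹)).det =
            (t ^ (N P)) ^ n * (Vm.det * (F.B P).det⁻¹) := by
          rw [Matrix.det_smul, Matrix.det_mul, hdi, Fintype.card_fin]
        have h6 : (t ^ (N P) • (Vm * (F.B P)⁻¹)).det ≠ 0 := by
          intro h
          apply h3
          rw [h]
          exact ge_zero
        have h7 : P.ord (t ^ (N P) • (Vm * (F.B P)⁻¹)).det = 0 := by
          rw [ge_iff h6] at h3 h4
          omega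
        rw [h5, P.ord_mul (pow_ne_zero _ (zpow_ne_zero _ ht0))
          (mul_ne_zero hVd (inv_ne_zero (F.det_ne P))), P.ord_mul hVd (inv_ne_zero (F.det_ne P)),
          P.ord_inv, P.ord_pow, P.ord_zpow, ht, mul_one] at h7
        have h8 : F.detDiv P = -P.ord (F.B P).det := rfl
        rw [h8]
        linarith
      have hdiv : divisor ℂ Vm.det = -(n • N) - F.detDiv := by
        ext P
        rw [divisor_apply, hord P, Finsupp.sub_apply, Finsupp.neg_apply, Finsupp.smul_apply,
          nsmul_eq_mul]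
      have h9 := ddeg_divisor (k := ℂ) Vm.det
      rw [hdiv, ddeg_sub, ddeg_neg, ddeg_nsmul, hNd] at h9
      linarith

end Pool.Agent.Helper41.CC2
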